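import Pool.Agent.Helper32.TV2.Defs

/-!
# Grids in partial orders of height two

Five sorts, each a copy of the grid: `0`, `1` below, `2`, `3`, `4` above. The order between `0` and `2`,
`1` and `2`, `1` and `3`, `1` and `4` is the identity; between `0` and `3` it is `h`, between `0` and `4`
it is `u`.
-/

set_option autoImplicit false

namespace Pool.Agent.Helper12.TV2

open Pool.Agent.Helper20.Spectra Pool.Agent.Helper20.OP Pool.Agent.Helper20.EX2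
open Pool.Agent.Helper29.C2 (IsLin POrdW POrdH)
open Pool.Agent.Helper32.TV2

section

variable {V : Type}

/-- the mark `s` -/
def mk (R : Str (1 + 5) V) (s : Fin 5) (x : V) : Prop := R (Fin.natAdd 1 s) x x

/-- `x` of sort `i` below `y` of sort `j` -/
def lnk (R : Str (1 + 5) V) (i j : Fin 5) (x y : V) : Prop :=
  mk R i x ∧ mk R j y ∧ R (Fin.castAdd 5 0) x y

/-- perfect matching between the sorts `i` and `j` -/
def PM (R : Str (1 + 5) V) (i j : Fin 5) : Prop :=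
  (∀ x, mk R i x → ∃ y, lnk R i j x y ∧ ∀ z, lnk R i j x z → z = y) ∧
  (∀ y, mk R j y → ∃ x, lnk R i j x y ∧ ∀ z, lnk R i j z y → z = x)

/-- the coded relation -/
def hu (R : Str (1 + 5) V) (j : Fin 5) (x y : V) : Prop :=
  ∃ w, lnk R 0 j x w ∧ ∃ a, lnk R 1 j a w ∧ ∃ m, lnk R 1 2 a m ∧ lnk R 0 2 y m

def ax3 (R : Str (1 + 5) V) : Prop :=
  (∀ x, ¬ ∀ i, ¬ mk R i x) ∧ (∀ x, ∀ i j, mk R i x → mk R j x → j = i) ∧
  PM R 0 2 ∧ PM R 1 2 ∧ PM R 1 3 ∧ PM R 1 4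

theorem PM.card {R : Str (1 + 5) V} {i j : Fin 5} (h : PM R i j) :
    Nat.card {x // mk R i x} = Nat.card {y // mk R j y} := by
  choose f hf using h.1
  refine Nat.card_congr (Equiv.ofBijective (fun x => ⟨f x.1 x.2, (hf x.1 x.2).1.2.1⟩) ⟨?_, ?_⟩)
  · rintro ⟨x, hx⟩ ⟨x', hx'⟩ hxx
    have h1 : f x hx = f x' hx' := congrArg Subtype.val hxx
    have h2 := (hf x hx).1
    have h3 := (hf x' hx').1
    rw [← h1] at h3
    obtain ⟨z, hz, hz'⟩ := h.2 _ h2.2.1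
    apply Subtype.ext
    show x = x'
    rw [hz' x h2, hz' x' h3]
  · rintro ⟨y, hy⟩
    obtain ⟨x, hx, hx'⟩ := h.2 y hy
    refine ⟨⟨x, hx.1⟩, Subtype.ext ?_⟩
    exact ((hf x hx.1).2 y hx).symm

theorem ax3_size [Finite V] {R : Str (1 + 5) V} (h : ax3 R) :
    Nat.card V = 5 * Nat.card {x // mk R 0 x} := by
  classical
  obtain ⟨h1, h2, p1, p2, p3, p4⟩ := h
  have h3 : ∀ x, ∃ i, mk R i x := fun x => by
    by_contra h4
    push Not at h4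
    exact h1 x h4
  choose s hs using h3
  have hsi : ∀ x i, s x = i ↔ mk R i x := fun x i =>
    ⟨fun e => e ▸ hs x, fun e => h2 x i (s x) e (hs x)⟩
  have e1 : Nat.card V = Nat.card (Σ i, {x // s x = i}) :=
    Nat.card_congr (Equiv.sigmaFiberEquiv s).symm
  have e2 : ∀ i, Nat.card {x // s x = i} = Nat.card {x // mk R i x} := fun i =>
    Nat.card_congr (Equiv.subtypeEquivRight fun x => hsi x i)
  rw [e1, Nat.card_sigma, Fin.sum_univ_five, e2, e2, e2, e2, e2, ← p3.card, ← p4.card, p2.card,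
    ← p1.card]
  ring

end

/-! ### Definability -/

lemma md_mk (s : Fin 5) : MD (1 + 5) 1 (fun _ R v => mk R s (v 0)) := MDef.rel _ 0 0

lemma md_lnk (i j : Fin 5) : MD (1 + 5) 2 (fun _ R v => lnk R i j (v 0) (v 1)) :=
  ((md_mk i).app ![0]).and (((md_mk j).app ![1]).and (MDef.rel _ 0 1))

lemma md_pm (i j : Fin 5) : MD (1 + 5) 0 (fun _ R _ => PM R i j) := by
  refine MDef.and (MDef.all ?_) (MDef.all ?_)
  · refine ((md_mk i).app ![0]).imp (MDef.ex (MDef.and ((md_lnk i j).app ![1, 0])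
      (MDef.all (((md_lnk i j).app ![2, 0]).imp (MDef.eq 0 1)))))
  · refine ((md_mk j).app ![0]).imp (MDef.ex (MDef.and ((md_lnk i j).app ![0, 1])
      (MDef.all (((md_lnk i j).app ![0, 2]).imp (MDef.eq 0 1)))))

lemma md_hu (j : Fin 5) : MD (1 + 5) 2 (fun _ R v => hu R j (v 0) (v 1)) :=
  MDef.ex (MDef.and ((md_lnk 0 j).app ![1, 0]) (MDef.ex (MDef.and ((md_lnk 1 j).app ![0, 1])
    (MDef.ex (MDef.and ((md_lnk 1 2).app ![1, 0]) ((md_lnk 0 2).app ![4, 0]))))))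

lemma md_ax3 : MD (1 + 5) 0 (fun _ R _ => ax3 R) := by
  refine MDef.and ?_ (MDef.and ?_ ((md_pm 0 2).and ((md_pm 1 2).and ((md_pm 1 3).and (md_pm 1 4)))))
  · exact MDef.all (MDef.not (MDef.allFin (P := fun i _ R (w : Fin 1 → _) _ => ¬ mk R i (w 0))
      fun i => ((md_mk i).app ![0]).not))
  · exact MDef.all (MDef.allFin (P := fun i _ R (w : Fin 1 → _) _ => ∀ j, mk R i (w 0) → mk R j (w 0) → j = i)
      fun i => MDef.allFin (P := fun j _ R (w : Fin 1 → _) _ => mk R i (w 0) → mk R j (w 0) → j = i)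
      fun j => ((md_mk i).app ![0]).imp (((md_mk j).app ![0]).imp (MDef.const _)))

/-- the coding -/
def cod3 : Coding 1 5 where
  dom _ R x := mk R 0 x
  h _ R x y := hu R 3 x y
  u _ R x y := hu R 4 x y
  ax _ R := ax3 R
  md_dom := md_mk 0
  md_h := md_hu 3
  md_u := md_hu 4
  md_ax := md_ax3
  c := 5
  hc := by omega
  size _ _ _ h := ax3_size h

/-! ### The grids -/

/-- the order -/
def rel3 (n : ℕ) (x y : Fin 5 × (Fin n × Fin n)) : Prop :=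
  (((x.1 = 0 ∧ y.1 = 2) ∨ (x.1 = 1 ∧ (y.1 = 2 ∨ y.1 = 3 ∨ y.1 = 4))) ∧ x.2 = y.2) ∨
  (x.1 = 0 ∧ y.1 = 3 ∧ gh n x.2 y.2) ∨ (x.1 = 0 ∧ y.1 = 4 ∧ gu n x.2 y.2)

lemma rel3_lvl {n : ℕ} {x y : Fin 5 × (Fin n × Fin n)} (h : rel3 n x y) :
    (x.1 = 0 ∨ x.1 = 1) ∧ (y.1 = 2 ∨ y.1 = 3 ∨ y.1 = 4) := by
  rcases h with ⟨⟨h1, h2⟩ | ⟨h1, h2⟩, _⟩ | ⟨h1, h2, _⟩ | ⟨h1, h2, _⟩
  · exact ⟨Or.inl h1, Or.inl h2⟩
  · exact ⟨Or.inr h1, h2⟩
  · exact ⟨Or.inl h1, Or.inr (Or.inl h2)⟩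
  · exact ⟨Or.inl h1, Or.inr (Or.inr h2)⟩

lemma rel3_no {n : ℕ} {x y z : Fin 5 × (Fin n × Fin n)} (h : rel3 n x y) (h' : rel3 n y z) : False := by
  have h1 := (rel3_lvl h).2
  have h2 := (rel3_lvl h').1
  rcases h1 with h1 | h1 | h1 <;> rcases h2 with h2 | h2 <;> rw [h1] at h2 <;> exact absurd h2 (by decide)

lemma pord3 (n : ℕ) : POrdH 3 (Fin 5 × (Fin n × Fin n)) (fun _ => rel3 n) :=
  ⟨⟨fun _ h => rel3_no h h, fun _ _ _ h h' => (rel3_no h h').elim⟩,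
    fun _ h => rel3_no (h 0 1 (by decide)) (h 1 2 (by decide))⟩

/-- the structure -/
def str3 (n : ℕ) : Str (1 + 5) (Fin 5 × (Fin n × Fin n)) :=
  mkM 5 (fun _ : Fin 1 => rel3 n) (fun s => {x | x.1 = s})

lemma mk_str3 {n : ℕ} {s : Fin 5} {x : Fin 5 × (Fin n × Fin n)} : mk (str3 n) s x ↔ x.1 = s := by
  unfold mk str3
  rw [mkM_mark]
  exact ⟨fun h => h.2, fun h => ⟨rfl, h⟩⟩

lemma lnk_str3 {n : ℕ} {i j : Fin 5} {x y : Fin 5 × (Fin n × Fin n)} :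
    lnk (str3 n) i j x y ↔ x.1 = i ∧ y.1 = j ∧ rel3 n x y := by
  unfold lnk
  rw [mk_str3, mk_str3]
  unfold str3
  rw [mkM_rel]

/-- the four identity links -/
lemma lnk_id {n : ℕ} {i j : Fin 5} (hij : (i = 0 ∧ j = 2) ∨ (i = 1 ∧ (j = 2 ∨ j = 3 ∨ j = 4)))
    {x y : Fin 5 × (Fin n × Fin n)} :
    lnk (str3 n) i j x y ↔ x.1 = i ∧ y.1 = j ∧ x.2 = y.2 := by
  rw [lnk_str3]
  refine and_congr_right fun hx => and_congr_right fun hy => ?_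
  subst hx hy
  constructor
  · rintro (⟨_, h⟩ | ⟨h1, h2, _⟩ | ⟨h1, h2, _⟩)
    · exact h
    · rw [h1, h2] at hij
      exact absurd hij (by decide)
    · rw [h1, h2] at hij
      exact absurd hij (by decide)
  · exact fun h => Or.inl ⟨hij, h⟩

lemma lnk_h {n : ℕ} {x y : Fin 5 × (Fin n × Fin n)} :
    lnk (str3 n) 0 3 x y ↔ x.1 = 0 ∧ y.1 = 3 ∧ gh n x.2 y.2 := by
  rw [lnk_str3]
  refine and_congr_right fun hx => and_congr_right fun hy => ?_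
  constructor
  · rintro (⟨h, _⟩ | ⟨_, _, h⟩ | ⟨_, h2, _⟩)
    · rw [hx, hy] at h
      exact absurd h (by decide)
    · exact h
    · rw [hy] at h2
      exact absurd h2 (by decide)
  · exact fun h => Or.inr (Or.inl ⟨hx, hy, h⟩)

lemma lnk_u {n : ℕ} {x y : Fin 5 × (Fin n × Fin n)} :
    lnk (str3 n) 0 4 x y ↔ x.1 = 0 ∧ y.1 = 4 ∧ gu n x.2 y.2 := by
  rw [lnk_str3]
  refine and_congr_right fun hx => and_congr_right fun hy => ?_
  constructor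
  · rintro (⟨h, _⟩ | ⟨_, h2, _⟩ | ⟨_, _, h⟩)
    · rw [hx, hy] at h
      exact absurd h (by decide)
    · rw [hy] at h2
      exact absurd h2 (by decide)
    · exact h
  · exact fun h => Or.inr (Or.inr ⟨hx, hy, h⟩)

lemma pm_str3 (n : ℕ) {i j : Fin 5} (hij : (i = 0 ∧ j = 2) ∨ (i = 1 ∧ (j = 2 ∨ j = 3 ∨ j = 4))) :
    PM (str3 n) i j := by
  constructor
  · intro x hx
    rw [mk_str3] at hx
    refine ⟨(j, x.2), (lnk_id hij).2 ⟨hx, rfl, rfl⟩, fun z hz => ?_⟩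
    obtain ⟨_, h2, h3⟩ := (lnk_id hij).1 hz
    exact Prod.ext h2 h3.symm
  · intro y hy
    rw [mk_str3] at hy
    refine ⟨(i, y.2), (lnk_id hij).2 ⟨rfl, hy, rfl⟩, fun z hz => ?_⟩
    obtain ⟨h1, _, h3⟩ := (lnk_id hij).1 hz
    exact Prod.ext h1 h3

lemma ax_str3 (n : ℕ) : ax3 (str3 n) := by
  refine ⟨fun x h => h x.1 (mk_str3.2 rfl), fun x i j h h' => ?_, pm_str3 n (by decide),
    pm_str3 n (by decide), pm_str3 n (by decide), pm_str3 n (by decide)⟩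
  rw [mk_str3] at h h'
  rw [← h, ← h']

lemma hu_str3 {n : ℕ} {j : Fin 5} (hj : j = 3 ∨ j = 4) {x y : Fin 5 × (Fin n × Fin n)} (hy : y.1 = 0) :
    hu (str3 n) j x y ↔ lnk (str3 n) 0 j x (j, y.2) := by
  have h1j : ((1 : Fin 5) = 0 ∧ j = 2) ∨ ((1 : Fin 5) = 1 ∧ (j = 2 ∨ j = 3 ∨ j = 4)) :=
    Or.inr ⟨rfl, Or.inr hj⟩
  have h12 : ((1 : Fin 5) = 0 ∧ (2 : Fin 5) = 2) ∨
    ((1 : Fin 5) = 1 ∧ ((2 : Fin 5) = 2 ∨ (2 : Fin 5) = 3 ∨ (2 : Fin 5) = 4)) := by decide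
  have h02 : ((0 : Fin 5) = 0 ∧ (2 : Fin 5) = 2) ∨
    ((0 : Fin 5) = 1 ∧ ((2 : Fin 5) = 2 ∨ (2 : Fin 5) = 3 ∨ (2 : Fin 5) = 4)) := by decide
  constructor
  · rintro ⟨w, h1, a, h2, m, h3, h4⟩
    obtain ⟨_, hw, e2⟩ := (lnk_id h1j).1 h2
    obtain ⟨_, _, e3⟩ := (lnk_id h12).1 h3
    obtain ⟨_, _, e4⟩ := (lnk_id h02).1 h4
    have e : w = (j, y.2) := Prod.ext hw (by rw [← e2, e3, ← e4])
    rwa [e] at h1
  · intro h
    exact ⟨(j, y.2), h, (1, y.2), (lnk_id h1j).2 ⟨rfl, rfl, rfl⟩, (2, y.2),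
      (lnk_id h12).2 ⟨rfl, rfl, rfl⟩, (lnk_id h02).2 ⟨hy, rfl, rfl⟩⟩

lemma dom3 {n : ℕ} {x : Fin 5 × (Fin n × Fin n)} :
    cod3.dom (Fin 5 × (Fin n × Fin n)) (str3 n) x ↔ x.1 = 0 :=
  Iff.trans (show cod3.dom (Fin 5 × (Fin n × Fin n)) (str3 n) x ↔ mk (str3 n) 0 x from Iff.rfl) mk_str3

/-- the elements of sort `0` -/
def e3 (n : ℕ) : {x // cod3.dom (Fin 5 × (Fin n × Fin n)) (str3 n) x} ≃ Fin n × Fin n where
  toFun x := x.1.2
  invFun p := ⟨(0, p), dom3.2 rfl⟩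
  left_inv := by
    rintro ⟨x, hx⟩
    exact Subtype.ext (Prod.ext (dom3.1 hx).symm rfl)
  right_inv _ := rfl

theorem t_H3 : StmtH3 := by
  refine ⟨5, cod3, fun n _ => ⟨Fin 5 × (Fin n × Fin n), inferInstance, fun _ => rel3 n,
    fun s => {x | x.1 = s}, pord3 n, ax_str3 n, e3 n, ?_, ?_⟩⟩
  · intro x y
    have hx := dom3.1 x.2
    have hy := dom3.1 y.2
    refine (hu_str3 (Or.inl rfl) hy).trans (lnk_h.trans ?_)
    exact ⟨fun h => h.2.2, fun h => ⟨hx, rfl, h⟩⟩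
  · intro x y
    have hx := dom3.1 x.2
    have hy := dom3.1 y.2
    refine (hu_str3 (Or.inr rfl) hy).trans (lnk_u.trans ?_)
    exact ⟨fun h => h.2.2, fun h => ⟨hx, rfl, h⟩⟩

end Pool.Agent.Helper12.TV2
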